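import Mathlib

/-!
Measurable three-colourings of bipartite graphs of bounded doubling constant, through a toast.
-/

namespace Pool.Agent.Lib.MP_6a9579_co

open Set

variable {X : Type} [MeasurableSpace X]

/-- Neighbourhood of a set. -/
def nb (Near : ℕ → X → X → Prop) (k : ℕ) (S : Set X) : Set X := {x | ∃ y ∈ S, Near k y x}

/-- Separated sets. -/
def Disc (Near : ℕ → X → X → Prop) (k : ℕ) (S : Set X) : Prop :=
  ∀ x ∈ S, ∀ y ∈ S, Near k x y → x = y

/-- The standing hypotheses. -/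
structure Sys (Near : ℕ → X → X → Prop) (Adj : X → X → Prop) (K : ℕ) : Prop where
  refl : ∀ k x, Near k x x
  symm : ∀ {k x y}, Near k x y → Near k y x
  tri : ∀ {k l x y z}, Near k x y → Near l y z → Near (k + l) x z
  meas : ∀ k S, MeasurableSet S → MeasurableSet (nb Near k S)
  cover : ∀ Q, ∃ B : ℕ → Set X, (∀ t, MeasurableSet (B t)) ∧ (∀ x, ∃ t, x ∈ B t) ∧
    ∀ t, Disc Near Q (B t)
  doubling : ∀ r, 0 < r → ∀ x, ∀ y : ℕ → X, (∀ i < K, Near (9 * r) (y i) x) →
    ∃ i j, i < j ∧ j < K ∧ Near r (y i) (y j)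
  adj : ∀ {x y}, Adj x y → Near 1 x y
  adjs : ∀ {x y}, Adj x y → Adj y x
  par : ∀ r M, MeasurableSet M → Disc Near (9 * r) M → ∃ Φ : Set X, MeasurableSet Φ ∧
    ∀ a ∈ M, ∀ x y, Near (4 * r) a x → Near (4 * r) a y → Adj x y → (x ∈ Φ ↔ y ∉ Φ)

variable {Near : ℕ → X → X → Prop} {Adj : X → X → Prop} {K : ℕ}

theorem Sys.mono (h : Sys Near Adj K) {k l : ℕ} {x y : X} (hkl : k ≤ l) (hn : Near k x y) :
    Near l x y := by
  obtain ⟨d, rfl⟩ := Nat.exists_eq_add_of_le hkl
  exact h.tri hn (h.refl d y)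

theorem Sys.tri' (h : Sys Near Adj K) {k l m : ℕ} {x y z : X} (h1 : Near k x y)
    (h2 : Near l y z) (hm : k + l ≤ m) : Near m x z := h.mono hm (h.tri h1 h2)

theorem Sys.maxdisc (h : Sys Near Adj K) (Q : ℕ) (S : Set X) (hS : MeasurableSet S) :
    ∃ M : Set X, MeasurableSet M ∧ M ⊆ S ∧ Disc Near Q M ∧ ∀ x ∈ S, ∃ a ∈ M, Near Q a x := by
  obtain ⟨B, hB1, hB2, hB3⟩ := h.cover Q
  let Mt : ℕ → Set X := fun t => Nat.rec ∅ (fun t A => A ∪ ((S ∩ B t) \ nb Near Q A)) t
  have hs : ∀ t, Mt (t + 1) = Mt t ∪ ((S ∩ B t) \ nb Near Q (Mt t)) := fun t => rfl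
  have hm : ∀ t, MeasurableSet (Mt t) := by
    intro t
    induction t with
    | zero => exact MeasurableSet.empty
    | succ t ih => rw [hs]; exact ih.union ((hS.inter (hB1 t)).diff (h.meas _ _ ih))
  have hsub : ∀ t, Mt t ⊆ S := by
    intro t
    induction t with
    | zero => exact empty_subset _
    | succ t ih => rw [hs]; exact union_subset ih (fun x hx => hx.1.1)
  have hd : ∀ t, Disc Near Q (Mt t) := by
    intro t
    induction t with
    | zero => intro x hx; exact absurd hx (notMem_empty x)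
    | succ t ih =>
      rw [hs]
      rintro x (hx | hx) y (hy | hy) hn
      · exact ih x hx y hy hn
      · exact absurd ⟨x, hx, hn⟩ hy.2
      · exact absurd ⟨y, hy, h.symm hn⟩ hx.2
      · exact hB3 t x hx.1.2 y hy.1.2 hn
  have hmono : Monotone Mt := monotone_nat_of_le_succ fun t => by
    rw [hs]; exact subset_union_left
  refine ⟨⋃ t, Mt t, MeasurableSet.iUnion hm, iUnion_subset hsub, ?_, ?_⟩
  · intro x hx y hy hn
    obtain ⟨s, hs⟩ := mem_iUnion.1 hx
    obtain ⟨t, ht⟩ := mem_iUnion.1 hy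
    exact hd (max s t) x (hmono (le_max_left _ _) hs) y (hmono (le_max_right _ _) ht) hn
  · intro x hx
    obtain ⟨t, ht⟩ := hB2 x
    by_cases hx' : x ∈ nb Near Q (Mt t)
    · obtain ⟨a, ha, hn⟩ := hx'
      exact ⟨a, mem_iUnion.2 ⟨t, ha⟩, hn⟩
    · refine ⟨x, mem_iUnion.2 ⟨t + 1, ?_⟩, h.refl _ _⟩
      rw [hs]; exact Or.inr ⟨⟨hx, ht⟩, hx'⟩

theorem Sys.layers (h : Sys Near Adj K) (r : ℕ) (hr : 0 < r) :
    ∃ M : ℕ → Set X, (∀ i, MeasurableSet (M i)) ∧ (∀ i, Disc Near (9 * r) (M i)) ∧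
      ∀ x, ∃ i < K, ∃ a ∈ M i, Near r a x := by
  have h0 : ∀ S : Set X, ∃ M : Set X, MeasurableSet S →
      MeasurableSet M ∧ M ⊆ S ∧ Disc Near (9 * r) M ∧ ∀ x ∈ S, ∃ a ∈ M, Near (9 * r) a x := by
    intro S
    by_cases hS : MeasurableSet S
    · obtain ⟨M, hM⟩ := h.maxdisc (9 * r) S hS
      exact ⟨M, fun _ => hM⟩
    · exact ⟨∅, fun h => absurd h hS⟩
  choose mx hmx using h0
  let U : ℕ → Set X := fun i => Nat.rec univ (fun _ A => A \ nb Near r (mx A)) i
  have hs : ∀ i, U (i + 1) = U i \ nb Near r (mx (U i)) := fun t => rfl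
  have hm : ∀ i, MeasurableSet (U i) := by
    intro i
    induction i with
    | zero => exact MeasurableSet.univ
    | succ i ih => rw [hs]; exact ih.diff (h.meas _ _ (hmx _ ih).1)
  have hanti : Antitone U := antitone_nat_of_succ_le fun t => by
    rw [hs]; exact sdiff_subset
  refine ⟨fun i => mx (U i), fun i => (hmx _ (hm i)).1, fun i => (hmx _ (hm i)).2.2.1, ?_⟩
  intro x
  by_contra hx
  have hU : ∀ i, i ≤ K → x ∈ U i := by
    intro i
    induction i with
    | zero => intro _; exact mem_univ x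
    | succ i ih =>
      intro hi
      rw [hs]
      refine ⟨ih (by omega), ?_⟩
      rintro ⟨a, ha, hn⟩
      exact hx ⟨i, by omega, a, ha, hn⟩
  have h1 : ∀ i, ∃ a, i < K → a ∈ mx (U i) ∧ Near (9 * r) a x := by
    intro i
    by_cases hi : i < K
    · obtain ⟨a, ha⟩ := (hmx _ (hm i)).2.2.2 x (hU i hi.le)
      exact ⟨a, fun _ => ha⟩
    · exact ⟨x, fun h => absurd h hi⟩
  choose y hy using h1
  obtain ⟨i, j, hij, hj, hn⟩ := h.doubling r hr x y (fun i hi => (hy i hi).2)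
  have h2 : y j ∈ U (i + 1) := hanti (show i + 1 ≤ j by omega) ((hmx _ (hm j)).2.1 (hy j hj).1)
  rw [hs] at h2
  exact h2.2 ⟨y i, (hy i (by omega)).1, hn⟩

/-- The scales. -/
def sc (m : ℕ) : ℕ := 3 * 10 ^ m

theorem sc_succ (m : ℕ) : sc (m + 1) = 10 * sc m := by unfold sc; ring

theorem three_le_sc (m : ℕ) : 3 ≤ sc m := by
  have : 0 < 10 ^ m := by positivity
  unfold sc; omega

theorem le_sc (m : ℕ) : m ≤ sc m := by
  have : m < 10 ^ m := Nat.lt_pow_self (by norm_num)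
  unfold sc; omega

/-- One absorption step. -/
def absorb (Near : ℕ → X → X → Prop) (M : ℕ → Set X) (m : ℕ) (S : Set X) : Set X :=
  S ∪ nb Near (4 * sc m) (M m ∩ nb Near (5 * sc m) S)

/-- All absorption steps below a level. -/
def grow (Near : ℕ → X → X → Prop) (M : ℕ → Set X) : ℕ → Set X → Set X
  | 0, S => S
  | m + 1, S => grow Near M m (absorb Near M m S)

omit [MeasurableSpace X] in
theorem subset_grow (M : ℕ → Set X) (m : ℕ) (S : Set X) : S ⊆ grow Near M m S := by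
  induction m generalizing S with
  | zero => exact Subset.rfl
  | succ m ih => exact subset_union_left.trans (ih (absorb Near M m S))

theorem Sys.grow_subset (h : Sys Near Adj K) (M : ℕ → Set X) (m : ℕ) (S : Set X) :
    grow Near M m S ⊆ nb Near (sc m) S := by
  induction m generalizing S with
  | zero => intro x hx; exact ⟨x, hx, h.refl _ _⟩
  | succ m ih =>
    intro x hx
    obtain ⟨y, hy, hn⟩ := ih (absorb Near M m S) hx
    rw [sc_succ]
    rcases hy with hy | ⟨a, ⟨-, z, hz, h1⟩, h2⟩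
    · exact ⟨y, hy, h.mono (by omega) hn⟩
    · exact ⟨z, hz, h.tri' (h.tri h1 h2) hn (by omega)⟩

theorem Sys.grow_meas (h : Sys Near Adj K) (M : ℕ → Set X) (hM : ∀ i, MeasurableSet (M i))
    (m : ℕ) (S : Set X) (hS : MeasurableSet S) : MeasurableSet (grow Near M m S) := by
  induction m generalizing S with
  | zero => exact hS
  | succ m ih => exact ih _ (hS.union (h.meas _ _ ((hM m).inter (h.meas _ _ hS))))

omit [MeasurableSpace X] in
theorem grow_lower (M : ℕ → Set X) (m n : ℕ) (hmn : m ≤ n) (S : Set X) :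
    ∃ S', grow Near M n S = grow Near M m S' := by
  induction n, hmn using Nat.le_induction generalizing S with
  | base => exact ⟨S, rfl⟩
  | succ n _ ih => exact ih _

theorem Sys.toast (h : Sys Near Adj K) (M : ℕ → Set X) (hD : ∀ i, Disc Near (9 * sc i) (M i))
    (m n : ℕ) (hmn : m < n) (S : Set X) (a : X) (ha : a ∈ M m) (y z : X)
    (hy : Near (4 * sc m) a y) (hz : Near (4 * sc m) a z) (hyS : y ∈ grow Near M n S) :
    z ∈ grow Near M n S := by
  obtain ⟨S', e⟩ := grow_lower (Near := Near) M (m + 1) n hmn S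
  rw [e] at hyS ⊢
  by_cases hc : a ∈ nb Near (5 * sc m) S'
  · exact subset_grow M m (absorb Near M m S') (Or.inr ⟨a, ⟨ha, hc⟩, hz⟩)
  · exfalso
    obtain ⟨w, hw, hn⟩ := h.grow_subset M m (absorb Near M m S') hyS
    rcases hw with hw | ⟨b, ⟨hb, hb'⟩, h2⟩
    · exact hc ⟨w, hw, h.tri' hn (h.symm hy) (by omega)⟩
    · have : b = a := hD m b hb a ha (h.tri' (h.tri h2 hn) (h.symm hy) (by omega))
      exact hc (this ▸ hb')

theorem Sys.colour (h : Sys Near Adj K) (M : ℕ → Set X) (hM : ∀ i, MeasurableSet (M i))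
    (hD : ∀ i, Disc Near (9 * sc i) (M i)) :
    ∃ Y : ℕ → Set X, (∀ n, MeasurableSet (Y n)) ∧ (∀ n, nb Near (2 * sc n) (M n) ⊆ Y n) ∧
      ∃ col : X → Fin 3, Measurable col ∧
        ∀ x y, Adj x y → (∃ n, x ∈ Y n) → (∃ n, y ∈ Y n) → col x ≠ col y := by
  classical
  let Y : ℕ → Set X := fun n => grow Near M n (nb Near (2 * sc n) (M n))
  have hY : ∀ n, MeasurableSet (Y n) := fun n => h.grow_meas M hM n _ (h.meas _ _ (hM n))
  have hY3 : ∀ n, ∀ x ∈ Y n, ∃ a ∈ M n, Near (3 * sc n) a x := by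
    intro n x hx
    obtain ⟨y, ⟨a, ha, h1⟩, h2⟩ := h.grow_subset M n _ hx
    exact ⟨a, ha, h.tri' h1 h2 (by omega)⟩
  refine ⟨Y, hY, fun n => subset_grow M n _, ?_⟩
  choose Φ hΦ1 hΦ2 using fun n => h.par (sc n) (M n) (hM n) (hD n)
  let W : ℕ → Set X := fun n => (Y n ∩ nb Near 1 (Y n)ᶜ) ∪ ((Y n)ᶜ ∩ nb Near 1 (Y n))
  have hW : ∀ n, MeasurableSet (W n) := fun n =>
    ((hY n).inter (h.meas _ _ (hY n).compl)).union ((hY n).compl.inter (h.meas _ _ (hY n)))
  have hW3 : ∀ n, ∀ x ∈ W n, ∃ a ∈ M n, Near (3 * sc n + 1) a x := by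
    rintro n x (hx | ⟨-, y, hy, hn⟩)
    · obtain ⟨a, ha, h1⟩ := hY3 n x hx.1
      exact ⟨a, ha, h.mono (by omega) h1⟩
    · obtain ⟨a, ha, h1⟩ := hY3 n y hy
      exact ⟨a, ha, h.tri h1 hn⟩
  let T : Set X := ⋃ n, W n ∩ Φ n
  let A : Set X := ⋃ n, (Y n \ ⋃ m : Fin n, Y m) ∩ Φ n
  have hT : MeasurableSet T := MeasurableSet.iUnion fun n => (hW n).inter (hΦ1 n)
  have hA : MeasurableSet A := MeasurableSet.iUnion fun n =>
    ((hY n).diff (MeasurableSet.iUnion fun m : Fin n => hY m)).inter (hΦ1 n)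
  have hTT : ∀ x y m n, Adj x y → m < n → x ∈ W m → y ∈ W n → False := by
    intro x y m n hxy hmn hx hy
    obtain ⟨a, ha, h1⟩ := hW3 m x hx
    have h3 := three_le_sc m
    have h2 : Near (3 * sc m + 1 + 1) a y := h.tri h1 (h.adj hxy)
    rcases hy with ⟨hy, z, hz, hn⟩ | ⟨hy, z, hz, hn⟩
    · exact hz (h.toast M hD m n hmn _ a ha y z (h.mono (by omega) h2)
        (h.tri' h2 (h.symm hn) (by omega)) hy)
    · exact hy (h.toast M hD m n hmn _ a ha z y (h.tri' h2 (h.symm hn) (by omega))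
        (h.mono (by omega) h2) hz)
  have hT2 : ∀ x y, Adj x y → x ∈ T → y ∈ T → False := by
    intro x y hxy hx hy
    obtain ⟨m, hx1, hx2⟩ := mem_iUnion.1 hx
    obtain ⟨n, hy1, hy2⟩ := mem_iUnion.1 hy
    rcases lt_trichotomy m n with hmn | rfl | hmn
    · exact hTT x y m n hxy hmn hx1 hy1
    · obtain ⟨a, ha, h1⟩ := hW3 m x hx1
      have h3 := three_le_sc m
      exact (hΦ2 m a ha x y (h.mono (by omega) h1) (h.tri' h1 (h.adj hxy) (by omega)) hxy).1 hx2
        hy2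
    · exact hTT y x n m (h.adjs hxy) hmn hy1 hx1
  have hcross : ∀ x y m, Adj x y → x ∈ Y m → y ∉ Y m → x ∈ T ∨ y ∈ T := by
    intro x y m hxy hx hy
    obtain ⟨a, ha, h1⟩ := hY3 m x hx
    have h3 := three_le_sc m
    have h4 := hΦ2 m a ha x y (h.mono (by omega) h1) (h.tri' h1 (h.adj hxy) (by omega)) hxy
    by_cases hxΦ : x ∈ Φ m
    · exact Or.inl (mem_iUnion.2 ⟨m, Or.inl ⟨hx, y, hy, h.symm (h.adj hxy)⟩, hxΦ⟩)
    · refine Or.inr (mem_iUnion.2 ⟨m, Or.inr ⟨hy, x, hx, h.adj hxy⟩, ?_⟩)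
      by_contra hc
      exact hxΦ (h4.2 hc)
  have hAf : ∀ x (hx : ∃ n, x ∈ Y n), x ∈ A ↔ x ∈ Φ (Nat.find hx) := by
    intro x hx
    constructor
    · intro hxA
      obtain ⟨n, ⟨h1, h2⟩, h3⟩ := mem_iUnion.1 hxA
      have : Nat.find hx = n := by
        rw [Nat.find_eq_iff]
        exact ⟨h1, fun m hm hc => h2 (mem_iUnion.2 ⟨⟨m, hm⟩, hc⟩)⟩
      rwa [this]
    · intro h1
      refine mem_iUnion.2 ⟨Nat.find hx, ⟨Nat.find_spec hx, ?_⟩, h1⟩
      intro hc
      obtain ⟨m, hm⟩ := mem_iUnion.1 hc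
      exact Nat.find_min hx m.2 hm
  refine ⟨fun x => if x ∈ T then 2 else if x ∈ A then 1 else 0,
    Measurable.ite hT measurable_const (Measurable.ite hA measurable_const measurable_const), ?_⟩
  intro x y hxy hx hy
  by_cases hxT : x ∈ T
  · have hyT : y ∉ T := hT2 x y hxy hxT
    simp only [hxT, hyT, if_true, if_false]
    split_ifs <;> decide
  · by_cases hyT : y ∈ T
    · simp only [hxT, hyT, if_true, if_false]
      split_ifs <;> decide
    · have e : Nat.find hx = Nat.find hy := by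
        apply le_antisymm
        · apply Nat.find_min'
          by_contra hc
          rcases hcross y x _ (h.adjs hxy) (Nat.find_spec hy) hc with h1 | h1
          · exact hyT h1
          · exact hxT h1
        · apply Nat.find_min'
          by_contra hc
          rcases hcross x y _ hxy (Nat.find_spec hx) hc with h1 | h1
          · exact hxT h1
          · exact hyT h1
      obtain ⟨a, ha, h1⟩ := hY3 _ x (Nat.find_spec hx)
      have h3 := three_le_sc (Nat.find hx)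
      have h4 := hΦ2 _ a ha x y (h.mono (by omega) h1) (h.tri' h1 (h.adj hxy) (by omega)) hxy
      rw [← hAf x hx, e, ← hAf y hy] at h4
      simp only [hxT, hyT, if_false]
      by_cases hxA : x ∈ A
      · simp [hxA, h4.1 hxA]
      · have : y ∈ A := by
          by_contra hc
          exact hxA (h4.2 hc)
        simp [hxA, this]

theorem Sys.three (h : Sys Near Adj K) :
    ∃ col : X → Fin 3, Measurable col ∧ ∀ x y, Adj x y → col x ≠ col y := by
  classical
  choose M hM1 hM2 hM3 using fun n => h.layers (sc n) (by have := three_le_sc n; omega)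
  choose Y hY1 hY2 col hc1 hc2 using fun i =>
    h.colour (fun n => M n i) (fun n => hM1 n i) (fun n => hM2 n i)
  let P : ℕ → X → Prop := fun i x => ∀ k, ∃ n, x ∉ nb Near k (Y i n)ᶜ
  have hP : ∀ i, MeasurableSet {x | P i x} := by
    intro i
    have : {x | P i x} = ⋂ k, ⋃ n, (nb Near k (Y i n)ᶜ)ᶜ := by
      ext x; simp [P]
    rw [this]
    exact MeasurableSet.iInter fun k => MeasurableSet.iUnion fun n =>
      (h.meas _ _ (hY1 i n).compl).compl
  have hex : ∀ x, ∃ i, P i x := by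
    intro x
    by_contra hc
    have h1 : ∀ i, ∃ k, ∀ n, x ∈ nb Near k (Y i n)ᶜ := by
      intro i
      by_contra h2
      apply hc
      refine ⟨i, fun k => ?_⟩
      by_contra h3
      exact h2 ⟨k, fun n => by by_contra h4; exact h3 ⟨n, h4⟩⟩
    choose k hk using h1
    let n := (Finset.range K).sup k
    obtain ⟨i, hi, a, ha, hn⟩ := hM3 n x
    obtain ⟨z, hz, hzx⟩ := hk i n
    have h2 : k i ≤ n := Finset.le_sup (f := k) (Finset.mem_range.2 hi)
    have h3 := le_sc n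
    exact hz (hY2 i n ⟨a, ha, h.tri' hn (h.symm hzx) (by omega)⟩)
  have hinv : ∀ i x y, Adj x y → P i x → P i y := by
    intro i x y hxy hx k
    obtain ⟨n, hn⟩ := hx (k + 1)
    refine ⟨n, ?_⟩
    rintro ⟨z, hz, h1⟩
    exact hn ⟨z, hz, h.tri h1 (h.symm (h.adj hxy))⟩
  have hin : ∀ i x, P i x → ∃ n, x ∈ Y i n := by
    intro i x hx
    obtain ⟨n, hn⟩ := hx 0
    refine ⟨n, ?_⟩
    by_contra hc
    exact hn ⟨x, hc, h.refl _ _⟩
  refine ⟨fun x => col (Nat.find (hex x)) x, Measurable.find hc1 hP hex, ?_⟩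
  intro x y hxy
  have e : Nat.find (hex y) = Nat.find (hex x) :=
    le_antisymm (Nat.find_min' _ (hinv _ x y hxy (Nat.find_spec (hex x))))
      (Nat.find_min' _ (hinv _ y x (h.adjs hxy) (Nat.find_spec (hex y))))
  simp only [e]
  exact hc2 _ x y hxy (hin _ x (Nat.find_spec (hex x)))
    (hin _ y (hinv _ x y hxy (Nat.find_spec (hex x))))

end Pool.Agent.Lib.MP_6a9579_co
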