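import Mathlib
import Pool.Agent.Lib.MP_6a9579_co.Toast

/-!
A Borel three-colouring of the free part of a finitely generated group of point reflections.
-/

namespace Pool.Agent.Lib.MP_6a9579_co

open Set

variable {E : Type} [NormedAddCommGroup E] {ι : Type} [Fintype ι] [DecidableEq ι]

/-- Word distance at most `k`. -/
def NearP (p : (ι → ℤ) →+ E) (k : ℕ) (x y : E) : Prop :=
  ∃ v : ι → ℤ, (∀ i, -(k : ℤ) ≤ v i ∧ v i ≤ k) ∧ (y = x + p v ∨ y = -x + p v)

/-- Edges in the free part. -/
def AdjP (p : (ι → ℤ) →+ E) (x y : E) : Prop :=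
  (∀ v, x + x ≠ p v) ∧ ∃ i, y = -x + p (Pi.single i 1)

omit [Fintype ι] [DecidableEq ι] in
theorem nearP_symm (p : (ι → ℤ) →+ E) {k : ℕ} {x y : E} (h : NearP p k x y) : NearP p k y x := by
  obtain ⟨v, hv, rfl | rfl⟩ := h
  · refine ⟨-v, fun i => ?_, Or.inl (by simp)⟩
    have := hv i
    simp only [Pi.neg_apply]; omega
  · exact ⟨v, hv, Or.inr (by simp)⟩

omit [Fintype ι] [DecidableEq ι] in
theorem nearP_tri (p : (ι → ℤ) →+ E) {k l : ℕ} {x y z : E} (h : NearP p k x y)
    (h' : NearP p l y z) : NearP p (k + l) x z := by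
  obtain ⟨v, hv, e⟩ := h
  obtain ⟨w, hw, e'⟩ := h'
  have h1 : ∀ i, -((k + l : ℕ) : ℤ) ≤ (w + v) i ∧ (w + v) i ≤ (k + l : ℕ) := by
    intro i
    have := hv i
    have := hw i
    simp only [Pi.add_apply]; omega
  have h2 : ∀ i, -((k + l : ℕ) : ℤ) ≤ (w - v) i ∧ (w - v) i ≤ (k + l : ℕ) := by
    intro i
    have := hv i
    have := hw i
    simp only [Pi.sub_apply]; omega
  rcases e with rfl | rfl <;> rcases e' with rfl | rfl
  · exact ⟨_, h1, Or.inl (by rw [map_add]; abel)⟩
  · exact ⟨_, h2, Or.inr (by rw [map_sub]; abel)⟩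
  · exact ⟨_, h1, Or.inr (by rw [map_add]; abel)⟩
  · exact ⟨_, h2, Or.inl (by rw [map_sub]; abel)⟩

omit [DecidableEq ι] in
theorem nearP_finite (p : (ι → ℤ) →+ E) (k : ℕ) (x : E) : {y | NearP p k x y}.Finite := by
  have h : {v : ι → ℤ | ∀ i, -(k : ℤ) ≤ v i ∧ v i ≤ k}.Finite := by
    have := Set.Finite.pi' (fun _ : ι => Set.finite_Icc (-(k : ℤ)) k)
    exact this
  refine ((h.image (fun v => x + p v)).union (h.image (fun v => -x + p v))).subset ?_
  rintro y ⟨v, hv, rfl | rfl⟩
  · exact Or.inl ⟨v, hv, rfl⟩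
  · exact Or.inr ⟨v, hv, rfl⟩

variable [MeasurableSpace E] [BorelSpace E] [SecondCountableTopology E]

theorem sysP (p : (ι → ℤ) →+ E) :
    Sys (NearP p) (AdjP p)
      (((Finset.univ : Finset Bool) ×ˢ
        Fintype.piFinset (fun _ : ι => Finset.Icc (-9 : ℤ) 9)).card + 1) where
  refl k x := ⟨0, fun i => by simp, Or.inl (by simp)⟩
  symm := nearP_symm p
  tri := nearP_tri p
  meas k S hS := by
    have : nb (NearP p) k S = ⋃ v : ι → ℤ, ⋃ _ : (∀ i, -(k : ℤ) ≤ v i ∧ v i ≤ k),
        ((fun x => x - p v) ⁻¹' S ∪ (fun x => p v - x) ⁻¹' S) := by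
      ext x
      simp only [nb, NearP, mem_ofPred_eq, mem_iUnion, mem_union, mem_preimage]
      constructor
      · rintro ⟨y, hy, v, hv, rfl | rfl⟩
        · exact ⟨v, hv, Or.inl (by simpa using hy)⟩
        · exact ⟨v, hv, Or.inr (by simpa using hy)⟩
      · rintro ⟨v, hv, h | h⟩
        · exact ⟨_, h, v, hv, Or.inl (by simp)⟩
        · exact ⟨_, h, v, hv, Or.inr (by simp)⟩
    rw [this]
    exact MeasurableSet.iUnion fun v => MeasurableSet.iUnion fun _ =>
      ((measurable_id.sub_const _) hS).union ((measurable_id.const_sub _) hS)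
  cover Q := by
    let B : ℕ → ℕ → Set E := fun a t => Metric.ball (TopologicalSpace.denseSeq E a) (1 / (t + 1)) ∩
      {x | ∀ y, NearP p Q x y → y = x ∨ 2 * (1 / (t + 1) : ℝ) ≤ dist x y}
    refine ⟨fun s => B s.unpair.1 s.unpair.2, ?_, ?_, ?_⟩
    · intro s
      refine Metric.isOpen_ball.measurableSet.inter ?_
      generalize (2 * (1 / (s.unpair.2 + 1) : ℝ)) = ε
      have : {x : E | ∀ y, NearP p Q x y → y = x ∨ ε ≤ dist x y} =
          ⋂ v : ι → ℤ, ⋂ _ : (∀ i, -(Q : ℤ) ≤ v i ∧ v i ≤ Q),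
            (({x | x + p v = x} ∪ {x | ε ≤ dist x (x + p v)}) ∩
              ({x | -x + p v = x} ∪ {x | ε ≤ dist x (-x + p v)})) := by
        ext x
        simp only [mem_ofPred_eq, mem_iInter, mem_inter_iff, mem_union]
        constructor
        · intro h v hv
          exact ⟨h _ ⟨v, hv, Or.inl rfl⟩, h _ ⟨v, hv, Or.inr rfl⟩⟩
        · rintro h y ⟨v, hv, rfl | rfl⟩
          · exact (h v hv).1
          · exact (h v hv).2
      rw [this]
      refine MeasurableSet.iInter fun v => MeasurableSet.iInter fun _ => ?_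
      refine (IsClosed.measurableSet ?_)
      exact ((isClosed_eq (by fun_prop) (by fun_prop)).union
        (isClosed_le (by fun_prop) (by fun_prop))).inter
        ((isClosed_eq (by fun_prop) (by fun_prop)).union
        (isClosed_le (by fun_prop) (by fun_prop)))
    · intro x
      have h1 : IsClosed ({y | NearP p Q x y} \ {x}) :=
        ((nearP_finite p Q x).subset sdiff_subset).isClosed
      obtain ⟨δ, hδ, h2⟩ := Metric.isOpen_iff.1 h1.isOpen_compl x (by simp)
      obtain ⟨t, ht⟩ := exists_nat_one_div_lt (half_pos hδ)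
      obtain ⟨a, ha⟩ := (TopologicalSpace.denseRange_denseSeq E).exists_dist_lt x
        (show (0 : ℝ) < 1 / (t + 1) by positivity)
      refine ⟨Nat.pair a t, ?_⟩
      simp only [Nat.unpair_pair]
      refine ⟨ha, ?_⟩
      intro y hy
      by_contra hc
      rw [not_or, not_le] at hc
      refine h2 (show y ∈ Metric.ball x δ from ?_) ⟨hy, hc.1⟩
      rw [Metric.mem_ball, dist_comm]
      linarith [hc.2]
    · intro s x hx y hy hn
      rcases hx.2 y hn with h | h
      · exact h.symm
      · have h1 := Metric.mem_ball.1 hx.1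
        have h2 := Metric.mem_ball.1 hy.1
        have h3 := dist_triangle_right x y (TopologicalSpace.denseSeq E s.unpair.1)
        linarith
  doubling r hr x y hy := by
    have h1 : ∀ i, ∃ s : Bool, ∃ v : ι → ℤ, i < ((Finset.univ : Finset Bool) ×ˢ
        Fintype.piFinset (fun _ : ι => Finset.Icc (-9 : ℤ) 9)).card + 1 →
        (∀ j, -((9 * r : ℕ) : ℤ) ≤ v j ∧ v j ≤ (9 * r : ℕ)) ∧
          y i = (if s then x else -x) + p v := by
      intro i
      by_cases hi : i < ((Finset.univ : Finset Bool) ×ˢ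
        Fintype.piFinset (fun _ : ι => Finset.Icc (-9 : ℤ) 9)).card + 1
      · obtain ⟨v, hv, e | e⟩ := nearP_symm p (hy i hi)
        · exact ⟨true, v, fun _ => ⟨hv, by simpa using e⟩⟩
        · exact ⟨false, v, fun _ => ⟨hv, by simpa using e⟩⟩
      · exact ⟨true, 0, fun h => absurd h hi⟩
    choose s v hsv using h1
    have hr' : (0 : ℤ) < r := by exact_mod_cast hr
    obtain ⟨i, hi, j, hj, hne, e⟩ := Finset.exists_ne_map_eq_of_card_lt_of_maps_to
      (s := Finset.range (((Finset.univ : Finset Bool) ×ˢ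
        Fintype.piFinset (fun _ : ι => Finset.Icc (-9 : ℤ) 9)).card + 1))
      (t := (Finset.univ : Finset Bool) ×ˢ
        Fintype.piFinset (fun _ : ι => Finset.Icc (-9 : ℤ) 9)) (by simp)
      (f := fun i => (s i, fun j => v i j / r)) (by
        intro i hi
        have := (hsv i (Finset.mem_range.1 hi)).1
        simp only [Finset.coe_product, Finset.coe_univ, mem_prod, mem_univ, true_and,
          Finset.mem_coe, Fintype.mem_piFinset, Finset.mem_Icc]
        intro j
        have := this j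
        exact ⟨(Int.le_ediv_iff_mul_le hr').2 (by omega),
          Int.ediv_le_of_le_mul hr' (by omega)⟩)
    rw [Finset.mem_range] at hi hj
    generalize ((Finset.univ : Finset Bool) ×ˢ
        Fintype.piFinset (fun _ : ι => Finset.Icc (-9 : ℤ) 9)).card + 1 = K at hsv hi hj ⊢
    have key : ∀ i j, i < K → j < K → (s i, fun k => v i k / r) = (s j, fun k => v j k / r) →
        NearP p r (y i) (y j) := by
      intro i j hi hj e
      rw [Prod.mk.injEq] at e
      refine ⟨v j - v i, fun k => ?_, Or.inl ?_⟩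
      · have h1 := congrFun e.2 k
        have h2 := Int.mul_ediv_add_emod (v i k) r
        have h3 := Int.mul_ediv_add_emod (v j k) r
        have h4 := Int.emod_nonneg (v i k) hr'.ne'
        have h5 := Int.emod_nonneg (v j k) hr'.ne'
        have h6 := Int.emod_lt_of_pos (v i k) hr'
        have h7 := Int.emod_lt_of_pos (v j k) hr'
        rw [h1] at h2
        simp only [Pi.sub_apply]
        constructor <;> linarith
      · rw [(hsv i hi).2, (hsv j hj).2, e.1, map_sub]; abel
    rcases lt_or_gt_of_ne hne with h | h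
    · exact ⟨i, j, h, hj, key i j hi hj e⟩
    · exact ⟨j, i, h, hi, key j i hj hi e.symm⟩
  adj := by
    rintro x y ⟨-, i, e⟩
    refine ⟨Pi.single i 1, fun j => ?_, Or.inr e⟩
    rw [Pi.single_apply]
    split_ifs <;> simp
  adjs := by
    rintro x y ⟨h, i, rfl⟩
    refine ⟨fun v e => h (Pi.single i 1 + Pi.single i 1 - v) ?_, i, by simp⟩
    rw [map_sub, map_add, ← e]; abel
  par r M hM hD := by
    refine ⟨⋃ v : ι → ℤ, ⋃ _ : (∀ i, -((4 * r : ℕ) : ℤ) ≤ v i ∧ v i ≤ (4 * r : ℕ)),
      (fun x => x - p v) ⁻¹' M, MeasurableSet.iUnion fun v => MeasurableSet.iUnion fun _ =>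
      (measurable_id.sub_const _) hM, ?_⟩
    have key : ∀ a ∈ M, ∀ x, NearP p (4 * r) a x → (∀ v, x + x ≠ p v) →
        (x ∈ (⋃ v : ι → ℤ, ⋃ _ : (∀ i, -((4 * r : ℕ) : ℤ) ≤ v i ∧ v i ≤ (4 * r : ℕ)),
          (fun x => x - p v) ⁻¹' M) ↔ ∃ v, x = a + p v) := by
      intro a ha x hx hf
      simp only [mem_iUnion, mem_preimage]
      constructor
      · rintro ⟨v, hv, h⟩
        have h1 : NearP p (4 * r) x (x - p v) := nearP_symm p ⟨v, hv, Or.inl (by simp)⟩
        obtain ⟨w, hw, e⟩ := nearP_tri p hx h1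
        have : a = x - p v := hD a ha _ h ⟨w, fun i => by have := hw i; omega, e⟩
        exact ⟨v, by rw [this]; simp⟩
      · rintro ⟨v, e⟩
        obtain ⟨w, hw, e' | e'⟩ := hx
        · exact ⟨w, hw, by rw [e']; simpa using ha⟩
        · exfalso
          apply hf (v + w)
          rw [map_add]
          calc x + x = (a + p v) + (-a + p w) := by rw [← e, ← e']
            _ = _ := by abel
    intro a ha x y hx hy hxy
    obtain ⟨hf, i, e⟩ := hxy
    have hf' : ∀ v, y + y ≠ p v := by
      intro v e'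
      apply hf (Pi.single i 1 + Pi.single i 1 - v)
      rw [map_sub, map_add, ← e', e]; abel
    rw [key a ha x hx hf, key a ha y hy hf']
    constructor
    · rintro ⟨v, e1⟩ ⟨w, e2⟩
      apply hf (Pi.single i 1 + v - w)
      rw [map_sub, map_add]
      have : x = -y + p (Pi.single i 1) := by rw [e]; abel
      calc x + x = (a + p v) + (-(a + p w) + p (Pi.single i 1)) := by rw [← e1, ← e2, ← this]
        _ = _ := by abel
    · intro h
      obtain ⟨w, -, e' | e'⟩ := hx
      · exact ⟨w, e'⟩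
      · exact absurd ⟨Pi.single i 1 - w, by rw [e, e', map_sub]; abel⟩ h

theorem free_three (p : (ι → ℤ) →+ E) : ∃ col : E → Fin 3, Measurable col ∧
    ∀ x i, (∀ v, x + x ≠ p v) → col x ≠ col (-x + p (Pi.single i 1)) := by
  obtain ⟨col, h1, h2⟩ := (sysP p).three
  exact ⟨col, h1, fun x i hx => h2 _ _ ⟨hx, i, rfl⟩⟩

end Pool.Agent.Lib.MP_6a9579_co
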