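import Mathlib

/-!
A discrete Lyusternik–Shnirelman theorem on the lattice, through Ky Fan's parity argument.
-/

namespace Pool.Agent.Lib.MP_6a9579_co

variable {V : Type}

/-- Coboundary mod 2 of a function on lists. -/
def cob : List V → (List V → ZMod 2) → ZMod 2
  | [], _ => 0
  | a :: σ, φ => φ σ + cob σ (fun τ => φ (a :: τ))

/-- Evaluation on a chain. -/
def ev (H : List (List V)) (φ : List V → ZMod 2) : ZMod 2 := (H.map φ).sum

/-- The prism between two maps. -/
def prism (f g : V → V) : List V → List (List V)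
  | [] => []
  | a :: σ => (f a :: g a :: σ.map g) :: (prism f g σ).map (fun τ => f a :: τ)

theorem z2 (x : ZMod 2) : x + x = 0 := by
  revert x; decide

theorem cob_add (σ : List V) (φ ψ : List V → ZMod 2) :
    cob σ (fun τ => φ τ + ψ τ) = cob σ φ + cob σ ψ := by
  induction σ generalizing φ ψ with
  | nil => simp [cob]
  | cons a σ ih => simp only [cob]; rw [ih]; ring

theorem cob_mul (σ : List V) (c : ZMod 2) (φ : List V → ZMod 2) :
    cob σ (fun τ => c * φ τ) = c * cob σ φ := by
  induction σ generalizing φ with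
  | nil => simp [cob]
  | cons a σ ih => simp only [cob]; rw [ih]; ring

theorem cob_map {W : Type} (g : V → W) (σ : List V) (φ : List W → ZMod 2) :
    cob (σ.map g) φ = cob σ (fun τ => φ (τ.map g)) := by
  induction σ generalizing φ with
  | nil => simp [cob]
  | cons a σ ih => simp only [cob, List.map_cons]; rw [ih]

theorem cob_congr (σ : List V) (φ ψ : List V → ZMod 2)
    (h : ∀ τ, τ.Sublist σ → φ τ = ψ τ) : cob σ φ = cob σ ψ := by
  induction σ generalizing φ ψ with
  | nil => simp [cob]
  | cons a σ ih =>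
    simp only [cob]
    rw [h σ (List.sublist_cons_self a σ), ih _ (fun τ => ψ (a :: τ))]
    intro τ hτ
    exact h _ (hτ.cons_cons a)

theorem cob_perm {σ σ' : List V} (p : σ.Perm σ') (φ : List V → ZMod 2)
    (h : ∀ τ τ', τ.Perm τ' → φ τ = φ τ') : cob σ φ = cob σ' φ := by
  induction p generalizing φ with
  | nil => rfl
  | cons a p ih =>
    simp only [cob]
    rw [h _ _ p, ih]
    intro τ τ' q
    exact h _ _ (q.cons a)
  | swap a b l =>
    simp only [cob]
    have : (fun τ => φ (b :: a :: τ)) = fun τ => φ (a :: b :: τ) := by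
      funext τ; exact h _ _ (List.Perm.swap a b τ)
    rw [this]; ring
  | trans _ _ ih1 ih2 => rw [ih1 φ h, ih2 φ h]

theorem ev_nil (φ : List V → ZMod 2) : ev [] φ = 0 := rfl

theorem ev_cons (σ : List V) (H : List (List V)) (φ : List V → ZMod 2) :
    ev (σ :: H) φ = φ σ + ev H φ := by simp [ev]

theorem ev_append (H H' : List (List V)) (φ : List V → ZMod 2) :
    ev (H ++ H') φ = ev H φ + ev H' φ := by simp [ev]

theorem ev_map (H : List (List V)) (g : List V → List V) (φ : List V → ZMod 2) :
    ev (H.map g) φ = ev H (fun τ => φ (g τ)) := by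
  simp [ev, List.map_map, Function.comp_def]

theorem ev_add (H : List (List V)) (φ ψ : List V → ZMod 2) :
    ev H (fun τ => φ τ + ψ τ) = ev H φ + ev H ψ := by
  induction H with
  | nil => simp [ev]
  | cons a H ih => simp only [ev_cons]; rw [ih]; ring

theorem ev_congr (H : List (List V)) (φ ψ : List V → ZMod 2) (h : ∀ τ ∈ H, φ τ = ψ τ) :
    ev H φ = ev H ψ := by
  unfold ev; rw [List.map_congr_left h]

theorem ev_flatMap (H : List (List V)) (P : List V → List (List V)) (φ : List V → ZMod 2) :
    ev (H.flatMap P) φ = ev H (fun σ => ev (P σ) φ) := by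
  induction H with
  | nil => simp [ev]
  | cons a H ih => rw [List.flatMap_cons, ev_append, ev_cons, ih]

theorem prism_id (f g : V → V) (σ : List V) (φ : List V → ZMod 2) :
    ev (prism f g σ) (fun τ => cob τ φ) =
      φ (σ.map f) + φ (σ.map g) + cob σ (fun τ => ev (prism f g τ) φ) := by
  induction σ generalizing φ with
  | nil => simp [prism, ev, cob, z2]
  | cons a σ ih =>
    simp only [prism, ev_cons, ev_map, cob, List.map_cons]
    rw [ev_add, ih, cob_add, cob_map]
    have h1 := z2 (φ (f a :: List.map g σ))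
    linear_combination h1

theorem prism_mem (f g : V → V) (σ τ : List V) (h : τ ∈ prism f g σ) :
    τ.length = σ.length + 1 ∧ ∀ x ∈ τ, ∃ a ∈ σ, x = f a ∨ x = g a := by
  induction σ generalizing τ with
  | nil => simp [prism] at h
  | cons a σ ih =>
    simp only [prism, List.mem_cons, List.mem_map] at h
    rcases h with rfl | ⟨τ', h', rfl⟩
    · refine ⟨by simp, ?_⟩
      intro x hx
      simp only [List.mem_cons, List.mem_map] at hx
      rcases hx with rfl | rfl | ⟨b, hb, rfl⟩
      · exact ⟨a, by simp, Or.inl rfl⟩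
      · exact ⟨a, by simp, Or.inr rfl⟩
      · exact ⟨b, by simp [hb], Or.inr rfl⟩
    · obtain ⟨h1, h2⟩ := ih τ' h'
      refine ⟨by simp [h1], ?_⟩
      intro x hx
      simp only [List.mem_cons] at hx
      rcases hx with rfl | hx
      · exact ⟨a, by simp, Or.inl rfl⟩
      · obtain ⟨b, hb, e⟩ := h2 x hx
        exact ⟨b, by simp [hb], e⟩

/-- The sweep of a chain along a discrete homotopy. -/
def sweep (F : ℕ → V → V) (Z : List (List V)) : ℕ → List (List V)
  | 0 => []
  | s + 1 => sweep F Z s ++ Z.flatMap (prism (F s) (F (s + 1)))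

theorem sweep_id (F : ℕ → V → V) (Z : List (List V))
    (hZ : ∀ φ, ev Z (fun τ => cob τ φ) = 0) (φ : List V → ZMod 2) (N : ℕ) :
    ev (sweep F Z N) (fun τ => cob τ φ) =
      ev Z (fun σ => φ (σ.map (F 0))) + ev Z (fun σ => φ (σ.map (F N))) := by
  induction N with
  | zero => simp [sweep, ev_nil, z2]
  | succ s ih =>
    simp only [sweep]
    rw [ev_append, ih, ev_flatMap]
    simp only [prism_id]
    rw [ev_add, ev_add, hZ]
    have h1 := z2 (ev Z fun σ => φ (σ.map (F s)))
    linear_combination h1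

theorem sweep_mem (F : ℕ → V → V) (Z : List (List V)) (N : ℕ) (τ : List V)
    (h : τ ∈ sweep F Z N) : ∃ s < N, ∃ σ ∈ Z, τ ∈ prism (F s) (F (s + 1)) σ := by
  induction N with
  | zero => simp [sweep] at h
  | succ s ih =>
    simp only [sweep, List.mem_append, List.mem_flatMap] at h
    rcases h with h | ⟨σ, h1, h2⟩
    · obtain ⟨s', hs, r⟩ := ih h
      exact ⟨s', by omega, r⟩
    · exact ⟨s, by omega, σ, h1, h2⟩

/-! ### Ky Fan's cochains on lists of labels -/

def wc : List ℕ → ZMod 2
  | [] => 0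
  | [_] => 1
  | a :: b :: l => ((a : ZMod 2) + b) * wc (b :: l)

def al : List ℕ → ZMod 2
  | [] => 1
  | a :: l => (a : ZMod 2) * wc (a :: l)

theorem cob_wc (a : ℕ) (l : List ℕ) : cob l (fun τ => wc (a :: τ)) = wc l := by
  induction l generalizing a with
  | nil => simp [cob, wc]
  | cons b m ih =>
    simp only [cob, wc]
    rw [cob_mul, ih]
    cases m with
    | nil => simp [wc]
    | cons c m =>
      simp only [wc]
      have h1 := z2 (a : ZMod 2)
      linear_combination (wc (c :: m)) * h1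

theorem cob_al (l : List ℕ) (hl : l ≠ []) : cob l al = wc l := by
  cases l with
  | nil => exact absurd rfl hl
  | cons a l =>
    simp only [cob, al]
    rw [cob_mul, cob_wc]
    cases l with
    | nil => simp [wc]
    | cons b m => simp only [wc]; ring

/-- Change of sign of a label. -/
def fl (u : ℕ) : ℕ := if u % 2 = 0 then u + 1 else u - 1

theorem fl_cast (u : ℕ) : ((fl u : ℕ) : ZMod 2) = u + 1 := by
  unfold fl
  split_ifs with h
  · push_cast; rfl
  · obtain ⟨v, rfl⟩ : ∃ v, u = v + 1 := ⟨u - 1, by omega⟩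
    have h1 := z2 (1 : ZMod 2)
    simp only [Nat.add_sub_cancel]; push_cast
    linear_combination -h1

theorem wc_fl (l : List ℕ) : wc (l.map fl) = wc l := by
  induction l with
  | nil => rfl
  | cons a l ih =>
    cases l with
    | nil => rfl
    | cons b m =>
      simp only [List.map_cons, wc] at ih ⊢
      rw [ih, fl_cast, fl_cast]
      have h1 := z2 (1 : ZMod 2)
      linear_combination (wc (b :: m)) * h1

theorem al_fl (l : List ℕ) (hl : l ≠ []) : al l + al (l.map fl) = wc l := by
  cases l with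
  | nil => exact absurd rfl hl
  | cons a l =>
    have h := wc_fl (a :: l)
    simp only [List.map_cons] at h
    simp only [List.map_cons, al]
    rw [h, fl_cast]
    have h1 := z2 (a : ZMod 2)
    linear_combination (wc (a :: l)) * h1

/-- No complementary pair. -/
def Good (l : List ℕ) : Prop := ∀ u ∈ l, ∀ v ∈ l, u / 2 = v / 2 → u = v

theorem wc_bound (B a : ℕ) (l : List ℕ) (hs : (a :: l).Pairwise (· ≤ ·)) (hg : Good (a :: l))
    (hB : ∀ u ∈ a :: l, u / 2 < B) (hw : wc (a :: l) ≠ 0) : a / 2 + l.length < B := by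
  induction l generalizing a with
  | nil => simpa using hB
  | cons b m ih =>
    simp only [wc, ne_eq, mul_eq_zero, not_or] at hw
    have h1 := ih b (List.Pairwise.of_cons hs)
      (fun u hu v hv => hg u (List.mem_cons_of_mem _ hu) v (List.mem_cons_of_mem _ hv))
      (fun u hu => hB u (List.mem_cons_of_mem _ hu)) hw.2
    have h2 : a ≤ b := List.rel_of_pairwise_cons hs (by simp)
    have h3 : a / 2 ≠ b / 2 := by
      intro e
      have := hg a (by simp) b (by simp) e
      subst this
      exact hw.1 (z2 _)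
    simp only [List.length_cons]
    omega

def srt (l : List ℕ) : List ℕ := l.insertionSort (· ≤ ·)

theorem srt_perm (l : List ℕ) : (srt l).Perm l := List.perm_insertionSort _ l

theorem srt_sorted (l : List ℕ) : (srt l).Pairwise (· ≤ ·) := List.pairwise_insertionSort _ l

theorem srt_eq {l l' : List ℕ} (p : l.Perm l') (h : l'.Pairwise (· ≤ ·)) : srt l = l' :=
  List.Perm.eq_of_pairwise' (srt_sorted l) h ((srt_perm l).trans p)

theorem cob_srt (l : List ℕ) (hl : l ≠ []) : cob l (fun τ => al (srt τ)) = wc (srt l) := by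
  rw [cob_perm (srt_perm l).symm]
  · rw [← cob_al]
    · apply cob_congr
      intro τ hτ
      rw [srt_eq (List.Perm.refl τ) ((srt_sorted l).sublist hτ)]
    · intro e
      have := (srt_perm l).length_eq
      rw [e] at this
      exact hl (List.eq_nil_of_length_eq_zero this.symm)
  · intro τ τ' p
    rw [srt_eq (p.trans (srt_perm τ').symm) (srt_sorted τ')]

theorem srt_fl (l : List ℕ) (hg : Good l) : srt (l.map fl) = (srt l).map fl := by
  apply srt_eq ((srt_perm l).map fl).symm
  rw [List.pairwise_map]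
  refine List.Pairwise.imp_of_mem ?_ (srt_sorted l)
  intro a b ha hb hab
  have h := hg a ((srt_perm l).subset ha) b ((srt_perm l).subset hb)
  unfold fl
  split_ifs <;> omega

/-! ### The lattice -/

section lattice
variable {n : ℕ}

/-- Invariants of the simplices of the hemisphere chains. -/
structure Inv (M j : ℕ) (σ : List (Fin n → ℤ)) : Prop where
  len : σ.length = j + 1
  far : ∀ a ∈ σ, ∃ i, (M : ℤ) ≤ a i ∨ a i ≤ -M
  bd : ∀ a ∈ σ, ∀ i, -(2 * M : ℤ) ≤ a i ∧ a i ≤ 2 * M
  zero : ∀ a ∈ σ, ∀ i : Fin n, j < i → a i = 0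
  diam : ∀ a ∈ σ, ∀ b ∈ σ, ∀ i, a i - b i ≤ j

theorem Inv.neg {M j : ℕ} {σ : List (Fin n → ℤ)} (h : Inv M j σ) :
    Inv M j (σ.map (fun x => -x)) := by
  refine ⟨by simp [h.len], ?_, ?_, ?_, ?_⟩
  · intro a ha
    obtain ⟨b, hb, rfl⟩ := List.mem_map.1 ha
    obtain ⟨i, hi⟩ := h.far b hb
    exact ⟨i, by simp only [Pi.neg_apply]; omega⟩
  · intro a ha i
    obtain ⟨b, hb, rfl⟩ := List.mem_map.1 ha
    have := h.bd b hb i
    simp only [Pi.neg_apply]; omega
  · intro a ha i hi
    obtain ⟨b, hb, rfl⟩ := List.mem_map.1 ha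
    simp [h.zero b hb i hi]
  · intro a ha a' ha' i
    obtain ⟨b, hb, rfl⟩ := List.mem_map.1 ha
    obtain ⟨b', hb', rfl⟩ := List.mem_map.1 ha'
    have := h.diam b' hb' b hb i
    simp only [Pi.neg_apply]; omega

/-- A chain plus its antipode. -/
def dbl (H : List (List (Fin n → ℤ))) : List (List (Fin n → ℤ)) :=
  H ++ H.map (fun σ => σ.map (fun x => -x))

theorem ev_dbl (H : List (List (Fin n → ℤ))) (φ : List (Fin n → ℤ) → ZMod 2) :
    ev (dbl H) φ = ev H φ + ev H (fun σ => φ (σ.map (fun x => -x))) := by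
  rw [dbl, ev_append, ev_map]

/-- The contraction. -/
def ctr (M j s : ℕ) (x : Fin n → ℤ) : Fin n → ℤ :=
  fun i => if (i : ℕ) = j + 1 then s else max (-(2 * M - s : ℤ)) (min (2 * M - s) (x i))

theorem step (M j : ℕ) (hM : 0 < M) (hj : j + 1 < n) (H : List (List (Fin n → ℤ)))
    (hH : ∀ σ ∈ H, Inv M j σ) (hZ : ∀ φ, ev (dbl H) (fun τ => cob τ φ) = 0) :
    ∃ H' : List (List (Fin n → ℤ)), (∀ σ ∈ H', Inv M (j + 1) σ) ∧
      ∀ φ, ev H' (fun τ => cob τ φ) = ev (dbl H) φ := by
  have hD : ∀ σ ∈ dbl H, Inv M j σ := by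
    intro σ hσ
    rcases List.mem_append.1 hσ with h | h
    · exact hH σ h
    · obtain ⟨σ', h', rfl⟩ := List.mem_map.1 h
      exact (hH σ' h').neg
  refine ⟨sweep (ctr M j) (dbl H) (2 * M), ?_, ?_⟩
  · intro τ hτ
    obtain ⟨s, hs, σ, hσ, hp⟩ := sweep_mem _ _ _ _ hτ
    obtain ⟨h1, h2⟩ := prism_mem _ _ _ _ hp
    have I := hD σ hσ
    have h3 : ∀ x ∈ τ, ∃ a ∈ σ, ∃ t : ℕ, s ≤ t ∧ t ≤ s + 1 ∧ x = ctr M j t a := by
      intro x hx
      obtain ⟨a, ha, e | e⟩ := h2 x hx
      · exact ⟨a, ha, s, le_rfl, by omega, e⟩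
      · exact ⟨a, ha, s + 1, by omega, le_rfl, e⟩
    refine ⟨by rw [h1, I.len], ?_, ?_, ?_, ?_⟩
    · intro x hx
      obtain ⟨a, ha, t, ht1, ht2, rfl⟩ := h3 x hx
      by_cases hMt : M ≤ t
      · refine ⟨⟨j + 1, hj⟩, Or.inl ?_⟩
        simp [ctr, hMt]
      · obtain ⟨i, hi⟩ := I.far a ha
        have hne : (i : ℕ) ≠ j + 1 := by
          intro e
          have := I.zero a ha i (by omega)
          omega
        refine ⟨i, ?_⟩
        simp only [ctr, hne, if_false]
        omega
    · intro x hx i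
      obtain ⟨a, ha, t, ht1, ht2, rfl⟩ := h3 x hx
      simp only [ctr]
      split_ifs <;> omega
    · intro x hx i hi
      obtain ⟨a, ha, t, ht1, ht2, rfl⟩ := h3 x hx
      have := I.zero a ha i (by omega)
      simp only [ctr]
      split_ifs <;> omega
    · intro x hx y hy i
      obtain ⟨a, ha, t, ht1, ht2, rfl⟩ := h3 x hx
      obtain ⟨b, hb, u, hu1, hu2, rfl⟩ := h3 y hy
      have := I.diam a ha b hb i
      simp only [ctr]
      split_ifs <;> omega
  · intro φ
    rw [sweep_id _ _ hZ]
    have e1 : ev (dbl H) (fun σ => φ (σ.map (ctr M j 0))) = ev (dbl H) φ := by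
      apply ev_congr
      intro σ hσ
      have I := hD σ hσ
      congr 1
      conv_rhs => rw [← List.map_id σ]
      apply List.map_congr_left
      intro a ha
      funext i
      have := I.bd a ha i
      have := I.zero a ha i
      simp only [ctr, id]
      split_ifs <;> omega
    have e2 : ev (dbl H) (fun σ => φ (σ.map (ctr M j (2 * M)))) = 0 := by
      rw [ev_dbl]
      have : (fun σ : List (Fin n → ℤ) => φ ((σ.map (fun x => -x)).map (ctr M j (2 * M)))) =
          fun σ => φ (σ.map (ctr M j (2 * M))) := by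
        funext σ
        rw [List.map_map]
        congr 2
        funext a i
        simp only [ctr, Function.comp]
        split_ifs <;> omega
      rw [this, z2]
    rw [e1, e2, add_zero]

theorem cyc_of (H H' : List (List (Fin n → ℤ)))
    (h : ∀ φ, ev H' (fun τ => cob τ φ) = ev (dbl H) φ) (φ : List (Fin n → ℤ) → ZMod 2) :
    ev (dbl H') (fun τ => cob τ φ) = 0 := by
  rw [ev_dbl]
  simp only [cob_map]
  rw [h, h, ev_dbl, ev_dbl]
  simp only [List.map_map, Function.comp_def, neg_neg, List.map_id']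
  have h1 := z2 (ev H φ)
  have h2 := z2 (ev H fun σ => φ (σ.map (fun x => -x)))
  linear_combination h1 + h2

/-- Far out in the lattice, a colouring with `n` colours has a nearly antipodal
monochromatic pair. -/
theorem tucker (hn : 0 < n) (M : ℕ) (hM : 0 < M) (ψ : (Fin n → ℤ) → ℕ) (hψ : ∀ a, ψ a < n) :
    ∃ a b : Fin n → ℤ, (∃ i, (M : ℤ) ≤ a i ∨ a i ≤ -M) ∧
      (∀ i, -(n : ℤ) ≤ a i + b i ∧ a i + b i ≤ n) ∧ ψ a = ψ b := by
  by_contra hcon
  have hne : ∀ a b : Fin n → ℤ, (∃ i, (M : ℤ) ≤ a i ∨ a i ≤ -M) →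
      (∀ i, -(n : ℤ) ≤ a i + b i ∧ a i + b i ≤ n) → ψ a ≠ ψ b :=
    fun a b h1 h2 h3 => hcon ⟨a, b, h1, h2, h3⟩
  let lab : (Fin n → ℤ) → ℕ := fun a => 2 * min (ψ a) (ψ (-a)) + if ψ a < ψ (-a) then 0 else 1
  have hanti : ∀ a : Fin n → ℤ, (∃ i, (M : ℤ) ≤ a i ∨ a i ≤ -M) → ψ a ≠ ψ (-a) := by
    intro a ha
    apply hne a _ ha
    intro i; simp
  have hfl : ∀ j, ∀ σ : List (Fin n → ℤ), Inv M j σ →
      (σ.map (fun x => -x)).map lab = (σ.map lab).map fl := by
    intro j σ I
    simp only [List.map_map]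
    apply List.map_congr_left
    intro a ha
    have := hanti a (I.far a ha)
    simp only [Function.comp, lab, fl, neg_neg]
    split_ifs <;> omega
  have hgood : ∀ j < n, ∀ σ : List (Fin n → ℤ), Inv M j σ → Good (σ.map lab) := by
    intro j hj σ I u hu v hv huv
    obtain ⟨a, ha, rfl⟩ := List.mem_map.1 hu
    obtain ⟨b, hb, rfl⟩ := List.mem_map.1 hv
    have h1 := hanti a (I.far a ha)
    have h2 := hanti b (I.far b hb)
    have h3 : ψ a ≠ ψ (-b) := by
      apply hne a _ (I.far a ha)
      intro i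
      have := I.diam a ha b hb i
      have := I.diam b hb a ha i
      simp only [Pi.neg_apply]; omega
    have h4 : ψ b ≠ ψ (-a) := by
      apply hne b _ (I.far b hb)
      intro i
      have := I.diam a ha b hb i
      have := I.diam b hb a ha i
      simp only [Pi.neg_apply]; omega
    simp only [lab] at huv ⊢
    split_ifs at huv ⊢ <;> omega
  let Φ : List (Fin n → ℤ) → ZMod 2 := fun σ => al (srt (σ.map lab))
  have hne' : ∀ j, ∀ σ : List (Fin n → ℤ), Inv M j σ → σ.map lab ≠ [] := by
    intro j σ I e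
    have := I.len
    rw [List.map_eq_nil_iff.1 e] at this
    simp at this
  have hΦ : ∀ j < n, ∀ σ : List (Fin n → ℤ), Inv M j σ →
      Φ σ + Φ (σ.map (fun x => -x)) = wc (srt (σ.map lab)) := by
    intro j hj σ I
    simp only [Φ]
    rw [hfl j σ I, srt_fl _ (hgood j hj σ I), al_fl]
    intro e
    have := (srt_perm (σ.map lab)).length_eq
    rw [e] at this
    exact hne' j σ I (List.eq_nil_of_length_eq_zero this.symm)
  have main : ∀ j < n, ∃ H : List (List (Fin n → ℤ)), (∀ σ ∈ H, Inv M j σ) ∧
      (∀ φ, ev (dbl H) (fun τ => cob τ φ) = 0) ∧ ev (dbl H) Φ = 1 := by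
    intro j
    induction j with
    | zero =>
      intro _
      let a : Fin n → ℤ := fun i => if (i : ℕ) = 0 then M else 0
      have I : Inv M 0 [a] := by
        refine ⟨rfl, ?_, ?_, ?_, ?_⟩
        · intro b hb
          rw [List.mem_singleton.1 hb]
          exact ⟨⟨0, hn⟩, Or.inl (by simp [a])⟩
        · intro b hb i
          rw [List.mem_singleton.1 hb]
          simp only [a]; split_ifs <;> omega
        · intro b hb i hi
          rw [List.mem_singleton.1 hb]
          simp only [a]; split_ifs <;> omega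
        · intro b hb c hc i
          rw [List.mem_singleton.1 hb, List.mem_singleton.1 hc]
          simp
      refine ⟨[[a]], by simpa using I, ?_, ?_⟩
      · intro φ
        simp [dbl, ev, cob, z2]
      · rw [ev_dbl, ← ev_add, ev_cons, ev_nil, hΦ 0 hn _ I]
        simp [srt, wc]
    | succ j ih =>
      intro hj
      obtain ⟨H, h1, h2, h3⟩ := ih (by omega)
      obtain ⟨H', h4, h5⟩ := step M j hM hj H h1 h2
      refine ⟨H', h4, cyc_of H H' h5, ?_⟩
      rw [ev_dbl, ← ev_add, ← h3, ← h5]
      apply ev_congr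
      intro σ hσ
      rw [hΦ _ hj σ (h4 σ hσ), ← cob_srt _ (hne' _ σ (h4 σ hσ)), cob_map]
  obtain ⟨H, h1, -, h3⟩ := main (n - 1) (by omega)
  rw [ev_dbl, ← ev_add, ev_congr H _ (fun _ => 0)] at h3
  · simp [ev] at h3
  · intro σ hσ
    have I := h1 σ hσ
    rw [hΦ (n - 1) (by omega) σ I]
    by_contra hw
    have hp := srt_perm (σ.map lab)
    have hs := srt_sorted (σ.map lab)
    have hl : (srt (σ.map lab)).length = n := by
      rw [hp.length_eq, List.length_map, I.len]; omega
    generalize srt (σ.map lab) = l at hw hp hs hl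
    cases l with
    | nil => simp at hl; omega
    | cons u l =>
      have hg := hgood (n - 1) (by omega) σ I
      have := wc_bound (n - 1) u l hs
        (fun x hx y hy => hg x (hp.subset hx) y (hp.subset hy)) ?_ hw
      · simp only [List.length_cons] at hl; omega
      · intro v hv
        obtain ⟨a, ha, rfl⟩ := List.mem_map.1 (hp.subset hv)
        have h1 := hanti a (I.far a ha)
        have h2 := hψ a
        have h3 := hψ (-a)
        simp only [lab]
        split_ifs <;> omega

end lattice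

end Pool.Agent.Lib.MP_6a9579_co
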